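import Pool.Agent.W2helper78.KW.Six

/-!
# Hard disks: the free energy up to close packing

Hard disks of radius `a` in the plane, `ρ₀ = 1 / (2 √3 a²)` the close-packing density. The limiting
free energy per particle is `log ρ - 2 log (1 - ρ / ρ₀) + O(1)`, uniformly for all densities
`0 < ρ < ρ₀`. In terms of the area per particle `v` (`v₀ = 1 / ρ₀`) the pressure `p` satisfies
`1 / C ≤ p (v - v₀) ≤ C`, and every first-order transition (affine piece of the free energy as a
function of `v`) changes the free area `v - v₀` at most by the factor `C`. Every configuration is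
locally crystalline: all but `C (ρ₀ (L + 4a)² - N)` of the `N` disks in a square of side `L` have
exactly six neighbours.
-/

set_option autoImplicit false

open MeasureTheory Filter Topology Pointwise

namespace Pool.Agent.Results.MP_09cbbd_mp.HardDisksClosePacking

/-- The hard-disk partition function of the square of side `L`: `(1 / N!)` times the volume of the
configurations of `N` centres in the square with mutual distances at least `2a`. -/
noncomputable def boxZ (a L : ℝ) (N : ℕ) : ℝ :=
  ((N.factorial : ℝ))⁻¹ * (volume {x : Fin N → Fin 2 → ℝ |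
    (∀ i k, x i k ∈ Set.Icc (0 : ℝ) L) ∧
    ∀ i j, i ≠ j → (2 * a) ^ 2 ≤ ∑ k, (x i k - x j k) ^ 2}).toReal

/-- `N_j` particles in squares of side `L_j → ∞`, with density tending to `ρ`. -/
def Thermodynamic (ρ : ℝ) (N : ℕ → ℕ) (L : ℕ → ℝ) : Prop :=
  Tendsto L atTop atTop ∧ Tendsto (fun j => (N j : ℝ) / L j ^ 2) atTop (𝓝 ρ)

/-- `f` is the limiting free energy per particle at density `ρ`. -/
def IsFreeEnergy (a ρ f : ℝ) : Prop :=
  ∀ (N : ℕ → ℕ) (L : ℕ → ℝ), Thermodynamic ρ N L →
    Tendsto (fun j => -(Real.log (boxZ a (L j) (N j))) / N j) atTop (𝓝 f)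

/-- The close-packing density of disks of radius `a`. -/
noncomputable def closePacking (a : ℝ) : ℝ := 1 / (2 * √3 * a ^ 2)

/-- `F` is the free energy per particle as a function of the area per particle `v`. -/
def IsFreeEnergyFunction (a : ℝ) (F : ℝ → ℝ) : Prop :=
  ∀ v, 1 / closePacking a < v → IsFreeEnergy a (1 / v) (F v)

/-- `p` is a pressure at `v`: `-p` is the slope of a supporting line of the free energy `F` at `v`
(if `F` is differentiable at `v` this means `p = - F' v`, by convexity of `F`). -/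
def IsPressure (a : ℝ) (F : ℝ → ℝ) (v p : ℝ) : Prop :=
  ∀ w, 1 / closePacking a < w → F v - p * (w - v) ≤ F w

open Classical in
/-- The neighbours of the disk with centre `x`: the other centres at distance at most `2.2 a`. -/
noncomputable def neighbours (a : ℝ) (P : Finset ℂ) (x : ℂ) : Finset ℂ :=
  P.filter fun y => y ≠ x ∧ ‖y - x‖ ≤ 11 / 5 * a

theorem local_structure {a L : ℝ} (ha : 0 < a) (hL : 0 ≤ L) (P : Finset ℂ)
    (hbox : ∀ x ∈ P, x.re ∈ Set.Icc (0 : ℝ) L ∧ x.im ∈ Set.Icc (0 : ℝ) L)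
    (hsep : ∀ x ∈ P, ∀ y ∈ P, x ≠ y → 2 * a ≤ ‖x - y‖) :
    (P.card : ℝ) ≤ closePacking a * (L + 4 * a) ^ 2 ∧
    ∃ B ⊆ P, (B.card : ℝ) ≤ 500 * (closePacking a * (L + 4 * a) ^ 2 - P.card) ∧
      (∀ x ∈ P, x ∉ B → (neighbours a P x).card = 6) ∧
      ∑ x ∈ P \ B, ∑ y ∈ neighbours a P x, (‖y - x‖ / (2 * a) - 1) ≤
        500 * (closePacking a * (L + 4 * a) ^ 2 - P.card) := by
  classical
  have h2 : 0 < 2 * a := by positivity
  have h3 : (0 : ℝ) < √3 := by positivity
  have h3' : √3 ^ 2 = 3 := Real.sq_sqrt (by norm_num)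
  have h3'' : √3 ≤ 1.74 := by
    rw [Real.sqrt_le_left (by norm_num)]; norm_num
  set e : ℂ → ℂ := fun z => ((2 * a)⁻¹ : ℝ) • z with he
  have hnorm : ∀ z w, ‖e z - e w‖ = ‖z - w‖ / (2 * a) := by
    intro z w
    rw [he]
    simp only
    rw [← smul_sub, norm_smul, Real.norm_of_nonneg (by positivity), inv_mul_eq_div]
  have hinj : Function.Injective e := by
    intro z w hzw
    have h4 := hnorm z w
    rw [hzw, sub_self, norm_zero] at h4
    have h5 : ‖z - w‖ = 0 := by
      rcases (div_eq_zero_iff.1 h4.symm) with h | h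
      · exact h
      · exact absurd h h2.ne'
    rwa [norm_eq_zero, sub_eq_zero] at h5
  have hS : Pool.Agent.W2helper78.KW.Sep (P.image e) := by
    intro x' hx' y' hy' hne
    obtain ⟨x, hx, rfl⟩ := Finset.mem_image.1 hx'
    obtain ⟨y, hy, rfl⟩ := Finset.mem_image.1 hy'
    rw [hnorm, one_le_div h2]
    exact hsep x hx y hy (fun h => hne (by rw [h]))
  have hB' : ∀ x' ∈ P.image e, x' ∈ Pool.Agent.W2helper78.KW.box (L / (2 * a)) := by
    intro x' hx'
    obtain ⟨x, hx, rfl⟩ := Finset.mem_image.1 hx'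
    obtain ⟨⟨b1, b2⟩, ⟨b3, b4⟩⟩ := hbox x hx
    have r1 : (e x).re = x.re / (2 * a) := by
      rw [he]; simp only [Complex.smul_re, smul_eq_mul, inv_mul_eq_div]
    have r2 : (e x).im = x.im / (2 * a) := by
      rw [he]; simp only [Complex.smul_im, smul_eq_mul, inv_mul_eq_div]
    refine ⟨?_, ?_⟩
    · rw [r1]
      exact ⟨by positivity, (div_le_div_iff_of_pos_right h2).2 b2⟩
    · rw [r2]
      exact ⟨by positivity, (div_le_div_iff_of_pos_right h2).2 b4⟩
  obtain ⟨c1, B', hB'P, c2, c3, c4⟩ := Pool.Agent.W2helper78.KW.structure1 (P.image e) (L / (2 * a))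
    (by positivity) hS hB'
  have hcard : (P.image e).card = P.card := Finset.card_image_of_injective _ hinj
  have hnb : ∀ x, Pool.Agent.W2helper78.KW.nbr (P.image e) (e x) = (neighbours a P x).image e := by
    intro x
    ext y'
    unfold Pool.Agent.W2helper78.KW.nbr neighbours
    rw [Finset.mem_filter, Finset.mem_image, Finset.mem_image]
    constructor
    · rintro ⟨⟨y, hy, rfl⟩, hne, hle⟩
      refine ⟨y, ?_, rfl⟩
      rw [Finset.mem_filter]
      rw [hnorm, div_le_iff₀ h2] at hle
      exact ⟨hy, fun h => hne (by rw [h]), by linarith⟩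
    · rintro ⟨y, hy, rfl⟩
      rw [Finset.mem_filter] at hy
      refine ⟨⟨y, hy.1, rfl⟩, fun h => hy.2.1 (hinj h), ?_⟩
      rw [hnorm, div_le_iff₀ h2]
      linarith [hy.2.2]
  rw [hcard] at c1 c2 c4
  have hid : (L / (2 * a) + 2) ^ 2 - √3 / 2 * P.card =
      √3 / 2 * (closePacking a * (L + 4 * a) ^ 2 - P.card) := by
    unfold closePacking
    field_simp
    ring
  have hpos : 0 ≤ closePacking a * (L + 4 * a) ^ 2 - P.card := by
    have : 0 ≤ √3 / 2 * (closePacking a * (L + 4 * a) ^ 2 - P.card) := by rw [← hid]; linarith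
    by_contra hc
    rw [not_le] at hc
    nlinarith
  rw [hid] at c2 c4
  have hinjOn : Set.InjOn e (P : Set ℂ) := hinj.injOn
  refine ⟨by linarith, P.filter (fun x => e x ∈ B'), Finset.filter_subset _ _, ?_, ?_, ?_⟩
  · have h4 : (P.filter (fun x => e x ∈ B')).card ≤ B'.card :=
      Finset.card_le_card_of_injOn e (fun x hx => (Finset.mem_filter.1 hx).2) hinj.injOn
    have h5 : ((P.filter (fun x => e x ∈ B')).card : ℝ) ≤ B'.card := by exact_mod_cast h4
    nlinarith
  · intro x hx hxB
    rw [Finset.mem_filter, not_and] at hxB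
    have h4 := c3 (e x) (Finset.mem_image_of_mem _ hx) (hxB hx)
    rwa [hnb, Finset.card_image_of_injective _ hinj] at h4
  · have h4 : ∑ x ∈ P \ P.filter (fun x => e x ∈ B'), ∑ y ∈ neighbours a P x, (‖y - x‖ / (2 * a) - 1) =
        ∑ x' ∈ P.image e \ B', ∑ y' ∈ Pool.Agent.W2helper78.KW.nbr (P.image e) x', (‖y' - x'‖ - 1) := by
      have h5 : P.image e \ B' = (P \ P.filter (fun x => e x ∈ B')).image e := by
        ext x'
        rw [Finset.mem_sdiff, Finset.mem_image, Finset.mem_image]
        constructor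
        · rintro ⟨⟨x, hx, rfl⟩, hxB⟩
          refine ⟨x, ?_, rfl⟩
          rw [Finset.mem_sdiff, Finset.mem_filter, not_and]
          exact ⟨hx, fun _ => hxB⟩
        · rintro ⟨x, hx, rfl⟩
          rw [Finset.mem_sdiff, Finset.mem_filter, not_and] at hx
          exact ⟨⟨x, hx.1, rfl⟩, hx.2 hx.1⟩
      rw [h5, Finset.sum_image hinj.injOn]
      refine Finset.sum_congr rfl fun x _ => ?_
      rw [hnb, Finset.sum_image hinj.injOn]
      refine Finset.sum_congr rfl fun y _ => ?_
      rw [hnorm]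
    rw [h4]
    refine c4.trans ?_
    nlinarith

open Pool.Agent.W2helper78.KW in
theorem boxZ_eq {a : ℝ} (ha : 0 < a) (L : ℝ) (N : ℕ) :
    boxZ a L N = (2 * a) ^ (2 * N) * Z1 N (L / (2 * a)) := by
  have h2 : 0 < 2 * a := by positivity
  have hset : {x : Fin N → Fin 2 → ℝ | (∀ i k, x i k ∈ Set.Icc (0 : ℝ) L) ∧
      ∀ i j, i ≠ j → (2 * a) ^ 2 ≤ ∑ k, (x i k - x j k) ^ 2} = (2 * a) • Conf N (L / (2 * a)) := by
    ext x
    rw [Set.mem_smul_set_iff_inv_smul_mem₀ h2.ne']
    simp only [Conf, Set.mem_ofPred_eq, Pi.smul_apply, smul_eq_mul, Set.mem_Icc]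
    refine and_congr ?_ ?_
    · refine forall_congr' fun i => forall_congr' fun k => ?_
      rw [inv_mul_eq_div, div_le_div_iff_of_pos_right h2]
      constructor
      · rintro ⟨h3, h4⟩; exact ⟨by positivity, h4⟩
      · rintro ⟨h3, h4⟩
        refine ⟨?_, h4⟩
        have := mul_nonneg h3 h2.le
        rwa [div_mul_cancel₀ _ h2.ne'] at this
    · refine forall_congr' fun i => forall_congr' fun j => imp_congr_right fun _ => ?_
      have e : ∑ k, ((2 * a)⁻¹ * x i k - (2 * a)⁻¹ * x j k) ^ 2 =
          (∑ k, (x i k - x j k) ^ 2) / (2 * a) ^ 2 := by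
        rw [Finset.sum_div]
        refine Finset.sum_congr rfl fun k _ => ?_
        field_simp
      rw [e, one_le_div (by positivity)]
  unfold boxZ Z1
  rw [hset, Measure.addHaar_smul]
  have hfr : Module.finrank ℝ (Fin N → Fin 2 → ℝ) = 2 * N := by
    simp [Module.finrank_pi_fintype, mul_comm]
  rw [hfr, abs_of_pos (by positivity), ENNReal.toReal_mul, ENNReal.toReal_ofReal (by positivity),
    Measure.real]
  ring

theorem energy : ∃ C : ℝ, 0 < C ∧ ∀ a ρ : ℝ, 0 < a → 0 < ρ → ρ < closePacking a →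
    ∀ (N : ℕ → ℕ) (L : ℕ → ℝ), Thermodynamic ρ N L →
      ∀ᶠ j in atTop, 0 < boxZ a (L j) (N j) ∧
        |-(Real.log (boxZ a (L j) (N j))) / N j -
          (Real.log ρ - 2 * Real.log (1 - ρ / closePacking a))| ≤ C := by
  obtain ⟨C, hC, hmain⟩ := Pool.Agent.W2helper78.KW.main1
  refine ⟨C, hC, ?_⟩
  intro a ρ ha hρ hρ0 N L ⟨hL, hN⟩
  have h2 : 0 < 2 * a := by positivity
  have h3 : (0 : ℝ) < √3 := by positivity
  have hcp : (2 * a) ^ 2 * ρ * (√3 / 2) = ρ / closePacking a := by
    unfold closePacking; field_simp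
  have hcp0 : 0 < closePacking a := by unfold closePacking; positivity
  have hlt : (2 * a) ^ 2 * ρ * (√3 / 2) < 1 := by
    rw [hcp, div_lt_one hcp0]; exact hρ0
  have hL' : Tendsto (fun j => L j / (2 * a)) atTop atTop := hL.atTop_div_const h2
  have hN' : Tendsto (fun j => (N j : ℝ) / (L j / (2 * a)) ^ 2) atTop (𝓝 ((2 * a) ^ 2 * ρ)) := by
    refine (hN.const_mul ((2 * a) ^ 2)).congr fun j => ?_
    rw [div_pow]
    field_simp
  have hNpos : ∀ᶠ j in atTop, 0 < N j := by
    have := hN.eventually (lt_mem_nhds hρ)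
    filter_upwards [this] with j hj
    by_contra hc
    have : N j = 0 := by omega
    rw [this] at hj
    simp at hj
  filter_upwards [hmain ((2 * a) ^ 2 * ρ) (by positivity) hlt N _ hL' hN', hNpos] with j hj hNj
  obtain ⟨hZ, hj⟩ := hj
  have hN0 : (0 : ℝ) < N j := by exact_mod_cast hNj
  rw [boxZ_eq ha]
  refine ⟨by positivity, ?_⟩
  have e1 : Real.log ((2 * a) ^ (2 * N j) * Pool.Agent.W2helper78.KW.Z1 (N j) (L j / (2 * a))) =
      2 * N j * Real.log (2 * a) + Real.log (Pool.Agent.W2helper78.KW.Z1 (N j) (L j / (2 * a))) := by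
    rw [Real.log_mul (by positivity) hZ.ne', Real.log_pow]; push_cast; ring
  have e2 : Pool.Agent.W2helper78.KW.G1 ((2 * a) ^ 2 * ρ) =
      2 * Real.log (2 * a) + (Real.log ρ - 2 * Real.log (1 - ρ / closePacking a)) := by
    unfold Pool.Agent.W2helper78.KW.G1
    rw [hcp, Real.log_mul (by positivity) hρ.ne', Real.log_pow]; push_cast; ring
  rw [e1]
  rw [e2] at hj
  have e3 : -(2 * (N j : ℝ) * Real.log (2 * a) +
      Real.log (Pool.Agent.W2helper78.KW.Z1 (N j) (L j / (2 * a)))) / N j -
      (Real.log ρ - 2 * Real.log (1 - ρ / closePacking a)) =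
      -Real.log (Pool.Agent.W2helper78.KW.Z1 (N j) (L j / (2 * a))) / N j -
      (2 * Real.log (2 * a) + (Real.log ρ - 2 * Real.log (1 - ρ / closePacking a))) := by
    field_simp
    ring
  rw [e3]
  exact hj

/-- There are sequences with every density. -/
theorem exists_thermo (ρ : ℝ) (hρ : 0 < ρ) :
    ∃ (N : ℕ → ℕ) (L : ℕ → ℝ), Thermodynamic ρ N L := by
  refine ⟨fun j => ⌊ρ * (j : ℝ) ^ 2⌋₊, fun j => j, tendsto_natCast_atTop_atTop, ?_⟩
  have h1 : Tendsto (fun j : ℕ => (j : ℝ) ^ 2) atTop atTop :=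
    (tendsto_pow_atTop (by omega)).comp tendsto_natCast_atTop_atTop
  exact (tendsto_nat_floor_mul_div_atTop hρ.le).comp h1

/-- the leading term as a function of the area per particle -/
theorem leading {v v0 : ℝ} (hv0 : 0 < v0) (hv : v0 < v) :
    Real.log (1 / v) - 2 * Real.log (1 - 1 / v / (1 / v0)) = Real.log v - 2 * Real.log (v - v0) := by
  have hvp : 0 < v := hv0.trans hv
  have e : 1 - 1 / v / (1 / v0) = (v - v0) / v := by field_simp
  rw [e, one_div v, Real.log_inv, Real.log_div (by linarith) hvp.ne']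
  ring

theorem result : ∃ C : ℝ, 0 < C ∧
    -- (1) the free energy at all densities below close packing
    (∀ a ρ : ℝ, 0 < a → 0 < ρ → ρ < closePacking a →
      ∀ (N : ℕ → ℕ) (L : ℕ → ℝ), Thermodynamic ρ N L →
        ∀ᶠ j in atTop, 0 < boxZ a (L j) (N j) ∧
          |-(Real.log (boxZ a (L j) (N j))) / N j -
            (Real.log ρ - 2 * Real.log (1 - ρ / closePacking a))| ≤ C) ∧
    (∀ a ρ f : ℝ, 0 < a → 0 < ρ → ρ < closePacking a → IsFreeEnergy a ρ f →
      |f - (Real.log ρ - 2 * Real.log (1 - ρ / closePacking a))| ≤ C) ∧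
    -- (2) the pressure
    (∀ (a : ℝ) (F : ℝ → ℝ), 0 < a → IsFreeEnergyFunction a F →
      ∀ v p : ℝ, 1 / closePacking a < v → IsPressure a F v p →
        1 / C ≤ p * (v - 1 / closePacking a) ∧ p * (v - 1 / closePacking a) ≤ C) ∧
    -- (3) first-order transitions
    (∀ (a : ℝ) (F : ℝ → ℝ), 0 < a → IsFreeEnergyFunction a F →
      ∀ v₁ v₂ A p : ℝ, 1 / closePacking a < v₁ → v₁ < v₂ →
        (∀ v ∈ Set.Icc v₁ v₂, F v = A - p * v) →
          v₂ - 1 / closePacking a ≤ C * (v₁ - 1 / closePacking a)) ∧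
    -- (4) local crystalline structure of all configurations
    (∀ a L : ℝ, 0 < a → 0 ≤ L → ∀ P : Finset ℂ,
      (∀ x ∈ P, x.re ∈ Set.Icc (0 : ℝ) L ∧ x.im ∈ Set.Icc (0 : ℝ) L) →
      (∀ x ∈ P, ∀ y ∈ P, x ≠ y → 2 * a ≤ ‖x - y‖) →
        (P.card : ℝ) ≤ closePacking a * (L + 4 * a) ^ 2 ∧
        ∃ B ⊆ P, (B.card : ℝ) ≤ C * (closePacking a * (L + 4 * a) ^ 2 - P.card) ∧
          (∀ x ∈ P, x ∉ B → (neighbours a P x).card = 6) ∧
          ∑ x ∈ P \ B, ∑ y ∈ neighbours a P x, (‖y - x‖ / (2 * a) - 1) ≤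
            C * (closePacking a * (L + 4 * a) ^ 2 - P.card)) := by
  obtain ⟨C, hC, h1⟩ := energy
  have h2 : ∀ a ρ f : ℝ, 0 < a → 0 < ρ → ρ < closePacking a → IsFreeEnergy a ρ f →
      |f - (Real.log ρ - 2 * Real.log (1 - ρ / closePacking a))| ≤ C := by
    intro a ρ f ha hρ hρ0 hf
    obtain ⟨N, L, hT⟩ := exists_thermo ρ hρ
    have h3 := h1 a ρ ha hρ hρ0 N L hT
    exact le_of_tendsto ((hf N L hT).sub_const _).abs (h3.mono fun j hj => hj.2)
  -- the free energy as a function of `v`
  have hF : ∀ (a : ℝ) (F : ℝ → ℝ), 0 < a → IsFreeEnergyFunction a F →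
      ∀ v, 1 / closePacking a < v →
        |F v - (Real.log v - 2 * Real.log (v - 1 / closePacking a))| ≤ C := by
    intro a F ha hFE v hv
    have hcp0 : 0 < closePacking a := by unfold closePacking; positivity
    have hv0 : 0 < 1 / closePacking a := by positivity
    have hvp : 0 < v := hv0.trans hv
    have hlt : 1 / v < closePacking a := by
      rw [div_lt_iff₀ hvp]
      rw [div_lt_iff₀ hcp0] at hv
      linarith
    have h3 := h2 a (1 / v) (F v) ha (by positivity) hlt (hFE v hv)
    have h4 := leading hv0 hv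
    rw [one_div_one_div] at h4
    rwa [h4] at h3
  have hC1 : (1 : ℝ) ≤ Real.exp (4 * C) := Real.one_le_exp (by positivity)
  have hC2 : 4 * C + 1 ≤ Real.exp (4 * C) := Real.add_one_le_exp _
  refine ⟨16 * Real.exp (4 * C) + 500, by positivity, ?_, ?_, ?_, ?_, ?_⟩
  · intro a ρ ha hρ hρ0 N L hT
    filter_upwards [h1 a ρ ha hρ hρ0 N L hT] with j hj
    exact ⟨hj.1, hj.2.trans (by linarith)⟩
  · intro a ρ f ha hρ hρ0 hf
    exact (h2 a ρ f ha hρ hρ0 hf).trans (by linarith)
  · intro a F ha hFE v p hv hp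
    have hcp0 : 0 < closePacking a := by unfold closePacking; positivity
    set v0 := 1 / closePacking a with hv0
    have hv0p : 0 < v0 := by rw [hv0]; positivity
    have hvp : 0 < v := hv0p.trans hv
    have hw : 0 < v - v0 := by linarith
    have hl2 := Real.log_two_lt_d9
    have hl2' : 0 < Real.log 2 := Real.log_pos (by norm_num)
    constructor
    · -- lower bound
      set K := Real.exp (2 * C + 1) with hK
      have hK1 : 1 < K := by rw [hK]; exact Real.one_lt_exp_iff.2 (by linarith)
      set w := v0 + K * (v - v0) with hwdef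
      have hwv : v0 < w := by
        have : 0 < K * (v - v0) := by positivity
        linarith
      have h5 := hp w hwv
      have h6 := abs_le.1 (hF a F ha hFE v hv)
      have h7 := abs_le.1 (hF a F ha hFE w hwv)
      rw [← hv0] at h6 h7
      have e1 : w - v0 = K * (v - v0) := by rw [hwdef]; ring
      have e2 : w - v = (K - 1) * (v - v0) := by rw [hwdef]; ring
      have e3 : Real.log (w - v0) = 2 * C + 1 + Real.log (v - v0) := by
        rw [e1, Real.log_mul (by positivity) hw.ne', hK, Real.log_exp]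
      have e4 : Real.log w ≤ 2 * C + 1 + Real.log v := by
        have : w ≤ K * v := by
          rw [hwdef]; nlinarith
        have h8 := Real.log_le_log (by linarith) this
        rwa [Real.log_mul (by positivity) hvp.ne', hK, Real.log_exp] at h8
      rw [e2] at h5
      have h9 : 1 ≤ p * ((K - 1) * (v - v0)) := by
        rw [e3] at h7
        linarith [h6.1, h7.2]
      have h10 : 0 < p * (v - v0) := by
        by_contra hc
        rw [not_lt] at hc
        have : p * ((K - 1) * (v - v0)) = (K - 1) * (p * (v - v0)) := by ring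
        rw [this] at h9
        nlinarith
      have h11 : 1 ≤ (16 * Real.exp (4 * C) + 500) * (p * (v - v0)) := by
        have h12 : K - 1 ≤ 16 * Real.exp (4 * C) + 500 := by
          have : K ≤ 3 * Real.exp (4 * C) := by
            rw [hK, Real.exp_add]
            have h13 : Real.exp (2 * C) ≤ Real.exp (4 * C) := Real.exp_le_exp.2 (by linarith)
            have h14 := Real.exp_one_lt_d9
            have h15 := Real.exp_pos (2 * C)
            nlinarith
          linarith
        calc 1 ≤ p * ((K - 1) * (v - v0)) := h9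
          _ = (K - 1) * (p * (v - v0)) := by ring
          _ ≤ _ := mul_le_mul_of_nonneg_right h12 h10.le
      rw [div_le_iff₀ (by positivity)]
      linarith
    · -- upper bound
      set w := v0 + (v - v0) / 2 with hwdef
      have hwv : v0 < w := by linarith
      have hwp : 0 < w := by linarith
      have h5 := hp w hwv
      have h6 := abs_le.1 (hF a F ha hFE v hv)
      have h7 := abs_le.1 (hF a F ha hFE w hwv)
      rw [← hv0] at h6 h7
      have e1 : w - v0 = (v - v0) / 2 := by rw [hwdef]; ring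
      have e2 : w - v = -((v - v0) / 2) := by rw [hwdef]; ring
      have e3 : Real.log (w - v0) = Real.log (v - v0) - Real.log 2 := by
        rw [e1, Real.log_div hw.ne' (by norm_num)]
      have e4 : Real.log w ≤ Real.log v := Real.log_le_log hwp (by rw [hwdef]; linarith)
      rw [e2] at h5
      rw [e3] at h7
      have h8 : p * (v - v0) ≤ 4 * C + 4 * Real.log 2 := by linarith [h6.1, h7.2]
      linarith
  · intro a F ha hFE v₁ v₂ A p hv₁ h12 hA
    have hcp0 : 0 < closePacking a := by unfold closePacking; positivity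
    set v0 := 1 / closePacking a with hv0
    have hv0p : 0 < v0 := by rw [hv0]; positivity
    have hw1 : 0 < v₁ - v0 := by linarith
    have hw2 : 0 < v₂ - v0 := by linarith
    set m := (v₁ + v₂) / 2 with hm
    have h3 := abs_le.1 (hF a F ha hFE v₁ hv₁)
    have h4 := abs_le.1 (hF a F ha hFE v₂ (hv₁.trans h12))
    have hmv : v0 < m := by rw [hm]; linarith
    have h5 := abs_le.1 (hF a F ha hFE m hmv)
    rw [← hv0] at h3 h4 h5
    rw [hA v₁ ⟨le_refl _, h12.le⟩] at h3
    rw [hA v₂ ⟨h12.le, le_refl _⟩] at h4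
    rw [hA m ⟨by rw [hm]; linarith, by rw [hm]; linarith⟩] at h5
    have hmid : A - p * m = ((A - p * v₁) + (A - p * v₂)) / 2 := by rw [hm]; ring
    have h6 : (Real.log v₁ + Real.log v₂ - 2 * Real.log m) / 2 -
        (Real.log (v₁ - v0) + Real.log (v₂ - v0) - 2 * Real.log (m - v0)) ≤ 2 * C := by
      linarith [h3.1, h4.1, h5.2]
    -- the logarithms
    have hm2 : Real.log m ≤ Real.log v₂ := Real.log_le_log (by linarith) (by rw [hm]; linarith)
    have hm3 : Real.log (v₂ - v0) - Real.log 2 ≤ Real.log (m - v0) := by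
      rw [← Real.log_div hw2.ne' (by norm_num)]
      exact Real.log_le_log (by linarith) (by rw [hm]; linarith)
    have hr : Real.log v₂ - Real.log v₁ ≤ Real.log (v₂ - v0) - Real.log (v₁ - v0) := by
      rw [← Real.log_div (by linarith) (by linarith), ← Real.log_div (by linarith) (by linarith)]
      apply Real.log_le_log (by apply div_pos <;> linarith)
      rw [div_le_div_iff₀ (by linarith) hw1]
      nlinarith
    have h7 : Real.log (v₂ - v0) ≤ 4 * C + 4 * Real.log 2 + Real.log (v₁ - v0) := by linarith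
    have h8 : v₂ - v0 ≤ Real.exp (4 * C + 4 * Real.log 2 + Real.log (v₁ - v0)) := by
      rw [← Real.log_le_iff_le_exp hw2]; exact h7
    rw [Real.exp_add, Real.exp_log hw1, Real.exp_add] at h8
    have h9 : Real.exp (4 * Real.log 2) = 16 := by
      rw [show 4 * Real.log 2 = ((4 : ℕ) : ℝ) * Real.log 2 by norm_num, Real.exp_nat_mul,
        Real.exp_log (by norm_num)]
      norm_num
    rw [h9] at h8
    nlinarith
  · intro a L ha hL P hbox hsep
    obtain ⟨c1, B, hB, c2, c3, c4⟩ := local_structure ha hL P hbox hsep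
    have h5 : 0 ≤ Real.exp (4 * C) * (closePacking a * (L + 4 * a) ^ 2 - P.card) :=
      mul_nonneg (Real.exp_pos _).le (by linarith)
    exact ⟨c1, B, hB, by nlinarith, c3, by nlinarith⟩

end Pool.Agent.Results.MP_09cbbd_mp.HardDisksClosePacking
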